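import Pool.Agent.Helper66.LCEmbed

/-!
# Loose cycles: weights of small sets and the cost lemma
-/

namespace Pool.Agent.Helper66.LC

open Finset Pool.Agent.Helper52.LC

theorem W_zero {n : ℕ} (x : Fin n → ℝ) : W x 0 = 0 := by
  simp [W]

theorem W_mono {n : ℕ} (x : Fin n → ℝ) (hx : ∀ i, 0 ≤ x i) {j k : ℕ} (h : j ≤ k) :
    W x j ≤ W x k := by
  unfold W
  apply sum_le_sum_of_subset_of_nonneg
  · intro i hi
    simp only [mem_filter, mem_univ, true_and] at hi ⊢
    omega
  · intro i _ _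
    exact hx i

theorem W_nonneg {n : ℕ} (x : Fin n → ℝ) (hx : ∀ i, 0 ≤ x i) (k : ℕ) : 0 ≤ W x k := by
  unfold W
  exact sum_nonneg fun i _ => hx i

theorem W_le_one {n : ℕ} (x : Fin n → ℝ) (hx : ∀ i, 0 ≤ x i) (hsum : ∑ i, x i = 1) (k : ℕ) :
    W x k ≤ 1 := by
  rw [← hsum]
  unfold W
  exact sum_le_sum_of_subset_of_nonneg (filter_subset _ _) fun i _ _ => hx i

theorem W_sub_W {n : ℕ} (x : Fin n → ℝ) (h k : ℕ) :
    W x (h + k) - W x h = ∑ i ∈ univ.filter (fun i : Fin n => h ≤ i.1 ∧ i.1 < h + k), x i := by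
  have h1 : univ.filter (fun i : Fin n => i.1 < h + k) =
      univ.filter (fun i : Fin n => i.1 < h) ∪
        univ.filter (fun i : Fin n => h ≤ i.1 ∧ i.1 < h + k) := by
    ext i
    simp only [mem_filter, mem_univ, true_and, mem_union]
    omega
  have h2 : Disjoint (univ.filter (fun i : Fin n => i.1 < h))
      (univ.filter (fun i : Fin n => h ≤ i.1 ∧ i.1 < h + k)) := by
    rw [Finset.disjoint_left]
    intro i hi hj
    simp only [mem_filter, mem_univ, true_and] at hi hj
    omega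
  unfold W
  rw [h1, sum_union h2]
  ring

theorem sum_le_W_sub_W {n h k : ℕ} (x : Fin n → ℝ) (hx : ∀ i, 0 ≤ x i)
    (hs : ∀ i j, i ≤ j → x j ≤ x i) (S : Finset (Fin n)) (hd : ∀ i ∈ S, h ≤ i.1)
    (hS : S.card ≤ k) : ∑ i ∈ S, x i ≤ W x (h + k) - W x h := by
  classical
  rw [W_sub_W]
  set T := univ.filter (fun i : Fin n => h ≤ i.1 ∧ i.1 < h + k) with hT
  by_cases hST : S ⊆ T
  · exact sum_le_sum_of_subset_of_nonneg hST fun i _ _ => hx i
  · rw [Finset.not_subset] at hST
    obtain ⟨i0, hi0S, hi0T⟩ := hST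
    have hi0 : h + k ≤ i0.1 := by
      simp only [hT, mem_filter, mem_univ, true_and, not_and, not_lt] at hi0T
      exact hi0T (hd i0 hi0S)
    have hkn : h + k < n := lt_of_le_of_lt hi0 i0.2
    have hTcard : T.card = k := by
      have h1 : T = (Finset.Ico h (h + k)).attachFin (fun m hm => by
          rw [Finset.mem_Ico] at hm; omega) := by
        ext i
        simp [hT, Finset.mem_attachFin]
      rw [h1, Finset.card_attachFin]
      simp
    have hcard : (S \ T).card ≤ (T \ S).card := by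
      have e1 := Finset.card_sdiff_add_card_inter S T
      have e2 := Finset.card_sdiff_add_card_inter T S
      rw [Finset.inter_comm] at e2
      omega
    set v := x ⟨h + k, hkn⟩ with hv
    have hv0 : 0 ≤ v := hx _
    have hle1 : ∑ i ∈ S \ T, x i ≤ ((S \ T).card : ℝ) * v := by
      have : ∑ i ∈ S \ T, x i ≤ ∑ i ∈ S \ T, v := by
        apply sum_le_sum
        intro i hi
        apply hs
        simp only [hT, mem_sdiff, mem_filter, mem_univ, true_and, not_and, not_lt] at hi
        have := hi.2 (hd i hi.1)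
        rw [Fin.le_def]
        exact this
      simpa using this
    have hle2 : ((T \ S).card : ℝ) * v ≤ ∑ i ∈ T \ S, x i := by
      have : ∑ i ∈ T \ S, v ≤ ∑ i ∈ T \ S, x i := by
        apply sum_le_sum
        intro i hi
        apply hs
        simp only [hT, mem_sdiff, mem_filter, mem_univ, true_and] at hi
        rw [Fin.le_def]
        exact hi.1.2.le
      simpa using this
    have hc' : ((S \ T).card : ℝ) ≤ ((T \ S).card : ℝ) := by exact_mod_cast hcard
    have e1 : ∑ i ∈ S, x i = ∑ i ∈ S \ T, x i + ∑ i ∈ S ∩ T, x i := by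
      rw [← Finset.sum_sdiff (Finset.inter_subset_left : S ∩ T ⊆ S), Finset.sdiff_inter_self_left]
    have e2 : ∑ i ∈ T, x i = ∑ i ∈ T \ S, x i + ∑ i ∈ S ∩ T, x i := by
      rw [← Finset.sum_sdiff (Finset.inter_subset_right : S ∩ T ⊆ T), Finset.inter_comm,
        Finset.sdiff_inter_self_left]
    rw [e1, e2]
    have := mul_le_mul_of_nonneg_right hc' hv0
    linarith

theorem sum_le_W {n k : ℕ} (x : Fin n → ℝ) (hx : ∀ i, 0 ≤ x i) (hs : ∀ i j, i ≤ j → x j ≤ x i)
    (S : Finset (Fin n)) (hS : S.card ≤ k) : ∑ i ∈ S, x i ≤ W x k := by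
  have := sum_le_W_sub_W (h := 0) x hx hs S (fun i _ => Nat.zero_le _) hS
  rw [W_zero, Nat.zero_add, sub_zero] at this
  exact this

/-- The version for a set disjoint from a prefix. -/
theorem sum_le_W_sub_W' {n h k : ℕ} (x : Fin n → ℝ) (hx : ∀ i, 0 ≤ x i)
    (hs : ∀ i j, i ≤ j → x j ≤ x i) (S : Finset (Fin n))
    (hd : Disjoint S (univ.filter (fun i : Fin n => i.1 < h)))
    (hS : S.card ≤ k) : ∑ i ∈ S, x i ≤ W x (h + k) - W x h := by
  apply sum_le_W_sub_W x hx hs S _ hS
  intro i hi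
  by_contra hlt
  exact (Finset.disjoint_left.mp hd hi) (by simp; omega)

section cost

variable {n : ℕ} {E : Finset (Finset (Fin n))} {x : Fin n → ℝ} {θ : ℝ}

/-- The missing link weight as a sum over the partners `b ≠ a` of `a`. -/
theorem mu_eq (hE : IsThreeGraph E) (hsum : ∑ i, x i = 1)
    (hlink : ∀ a, ∑ b, ∑ c, (if ({a, b, c} : Finset (Fin n)) ∈ E then x b * x c else 0) = θ)
    (a : Fin n) :
    mu x θ a = ∑ b ∈ univ.erase a, x b * (1 - x a - x b - ∑ m ∈ avail E a b, x m) := by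
  have h1 : ∑ b ∈ univ.erase a, x b = 1 - x a := by
    rw [← hsum, ← Finset.sum_erase_add univ x (mem_univ a)]; ring
  have h2 : ∑ b ∈ univ.erase a, x b ^ 2 = ∑ b, x b ^ 2 - x a ^ 2 := by
    rw [← Finset.sum_erase_add univ (fun b => x b ^ 2) (mem_univ a)]; ring
  have h3 : ∑ b ∈ univ.erase a, x b * ∑ m ∈ avail E a b, x m = θ := by
    rw [← hlink a, ← Finset.sum_erase_add univ _ (mem_univ a)]
    have h4 : ∑ c, (if ({a, a, c} : Finset (Fin n)) ∈ E then x a * x c else 0) = 0 := by
      apply sum_eq_zero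
      intro c _
      rw [if_neg]
      intro hc
      have := (not_mem_avail_left hE (a := a) (b := a) (m := c) (by simpa [avail] using hc)).2.2
      exact this rfl
    rw [h4, add_zero]
    apply sum_congr rfl
    intro b _
    rw [mul_sum]
    unfold avail
    rw [sum_filter]
  have h5 : ∑ b ∈ univ.erase a, x b * (1 - x a - x b - ∑ m ∈ avail E a b, x m) =
      (1 - x a) * ∑ b ∈ univ.erase a, x b - ∑ b ∈ univ.erase a, x b ^ 2 -
        ∑ b ∈ univ.erase a, x b * ∑ m ∈ avail E a b, x m := by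
    rw [mul_sum, ← sum_sub_distrib, ← sum_sub_distrib]
    apply sum_congr rfl
    intro b _
    ring
  rw [h5, h1, h2, h3]
  unfold mu
  ring

theorem avail_sum_add (hE : IsThreeGraph E) (x : Fin n → ℝ) {a b : Fin n} (hab : b ≠ a) :
    x a + x b + ∑ m ∈ avail E a b, x m = ∑ m ∈ insert a (insert b (avail E a b)), x m := by
  rw [sum_insert, sum_insert]
  · ring
  · intro hb
    exact (not_mem_avail_left hE hb).2.1 rfl
  · rw [mem_insert]
    rintro (h | h)
    · exact hab h.symm
    · exact (not_mem_avail_left hE h).1 rfl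

theorem avail_sum_add' (hE : IsThreeGraph E) (x : Fin n → ℝ) {a b : Fin n} :
    x b + ∑ m ∈ avail E a b, x m = ∑ m ∈ insert b (avail E a b), x m := by
  rw [sum_insert]
  intro hb
  exact (not_mem_avail_left hE hb).2.1 rfl

theorem cost_term_nonneg (hE : IsThreeGraph E) (hx : ∀ i, 0 ≤ x i) (hsum : ∑ i, x i = 1)
    {a b : Fin n} (hab : b ≠ a) : 0 ≤ 1 - x a - x b - ∑ m ∈ avail E a b, x m := by
  have h1 := avail_sum_add hE x hab
  have h2 : ∑ m ∈ insert a (insert b (avail E a b)), x m ≤ ∑ m, x m :=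
    sum_le_sum_of_subset_of_nonneg (subset_univ _) fun i _ _ => hx i
  rw [hsum] at h2
  linarith

theorem mu_nonneg (hE : IsThreeGraph E) (hx : ∀ i, 0 ≤ x i) (hsum : ∑ i, x i = 1)
    (hlink : ∀ a, ∑ b, ∑ c, (if ({a, b, c} : Finset (Fin n)) ∈ E then x b * x c else 0) = θ)
    (a : Fin n) : 0 ≤ mu x θ a := by
  rw [mu_eq hE hsum hlink a]
  apply sum_nonneg
  intro b hb
  exact mul_nonneg (hx b) (cost_term_nonneg hE hx hsum (ne_of_mem_erase hb))

/-- General form of the cost lemma: if every bad partner costs at least `z`. -/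
theorem cost_general (hE : IsThreeGraph E) (hx : ∀ i, 0 ≤ x i) (hsum : ∑ i, x i = 1)
    (hlink : ∀ a, ∑ b, ∑ c, (if ({a, b, c} : Finset (Fin n)) ∈ E then x b * x c else 0) = θ)
    (a : Fin n) (B : Finset (Fin n)) (hB : ∀ b ∈ B, b ≠ a) (z : ℝ)
    (hz : ∀ b ∈ B, z ≤ 1 - x a - x b - ∑ m ∈ avail E a b, x m) :
    (∑ b ∈ B, x b) * z ≤ mu x θ a := by
  rw [mu_eq hE hsum hlink a, sum_mul]
  calc ∑ b ∈ B, x b * z ≤ ∑ b ∈ B, x b * (1 - x a - x b - ∑ m ∈ avail E a b, x m) := by
        apply sum_le_sum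
        intro b hb
        exact mul_le_mul_of_nonneg_left (hz b hb) (hx b)
    _ ≤ ∑ b ∈ univ.erase a, x b * (1 - x a - x b - ∑ m ∈ avail E a b, x m) := by
        apply sum_le_sum_of_subset_of_nonneg
        · intro b hb
          exact mem_erase.mpr ⟨hB b hb, mem_univ _⟩
        · intro b hb _
          exact mul_nonneg (hx b) (cost_term_nonneg hE hx hsum (ne_of_mem_erase hb))

/-- The cost of a pair of small codegree, first form. -/
theorem one_sub_W_le (hE : IsThreeGraph E) (hx : ∀ i, 0 ≤ x i)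
    (hs : ∀ i j, i ≤ j → x j ≤ x i) {q : ℕ} {a b : Fin n} (hab : b ≠ a)
    (hq : (avail E a b).card < q) :
    1 - W x (q + 1) ≤ 1 - x a - x b - ∑ m ∈ avail E a b, x m := by
  have h1 := avail_sum_add hE x hab
  have h2 : (insert a (insert b (avail E a b))).card ≤ q + 1 := by
    have := card_insert_le a (insert b (avail E a b))
    have := card_insert_le b (avail E a b)
    omega
  have h3 := sum_le_W x hx hs _ h2
  linarith

/-- The cost of a pair of small codegree, second form. -/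
theorem one_sub_sub_W_le (hE : IsThreeGraph E) (hx : ∀ i, 0 ≤ x i)
    (hs : ∀ i j, i ≤ j → x j ≤ x i) {q : ℕ} {a b : Fin n}
    (hq : (avail E a b).card < q) :
    1 - x a - W x q ≤ 1 - x a - x b - ∑ m ∈ avail E a b, x m := by
  have h1 := avail_sum_add' hE x (a := a) (b := b)
  have h2 : (insert b (avail E a b)).card ≤ q := by
    have := card_insert_le b (avail E a b)
    omega
  have h3 := sum_le_W x hx hs _ h2
  linarith

/-- **Cost lemma**, first form. -/
theorem cost_bad (hE : IsThreeGraph E) (hx : ∀ i, 0 ≤ x i)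
    (hs : ∀ i j, i ≤ j → x j ≤ x i) (hsum : ∑ i, x i = 1)
    (hlink : ∀ a, ∑ b, ∑ c, (if ({a, b, c} : Finset (Fin n)) ∈ E then x b * x c else 0) = θ)
    (a : Fin n) (q : ℕ) :
    (∑ b ∈ bad E q a, x b) * (1 - W x (q + 1)) ≤ mu x θ a := by
  apply cost_general hE hx hsum hlink
  · intro b hb
    simp only [bad, mem_filter, mem_univ, true_and] at hb
    exact hb.1
  · intro b hb
    simp only [bad, mem_filter, mem_univ, true_and] at hb
    exact one_sub_W_le hE hx hs hb.1 hb.2

/-- **Cost lemma**, second form. -/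
theorem cost_bad' (hE : IsThreeGraph E) (hx : ∀ i, 0 ≤ x i)
    (hs : ∀ i j, i ≤ j → x j ≤ x i) (hsum : ∑ i, x i = 1)
    (hlink : ∀ a, ∑ b, ∑ c, (if ({a, b, c} : Finset (Fin n)) ∈ E then x b * x c else 0) = θ)
    (a : Fin n) (q : ℕ) :
    (∑ b ∈ bad E q a, x b) * (1 - x a - W x q) ≤ mu x θ a := by
  apply cost_general hE hx hsum hlink
  · intro b hb
    simp only [bad, mem_filter, mem_univ, true_and] at hb
    exact hb.1
  · intro b hb
    simp only [bad, mem_filter, mem_univ, true_and] at hb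
    exact one_sub_sub_W_le hE hx hs hb.2

end cost

end Pool.Agent.Helper66.LC
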