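import Pool.Agent.Helper52.LC.Basic

/-!
# Loose cycles: from availabilities of cyclically consecutive pairs to a loose cycle (Hall)
-/

namespace Pool.Agent.Helper66.LC

open Finset Pool.Agent.Helper52.LC

theorem not_mem_avail_left {V : Type*} [Fintype V] [DecidableEq V] {E : Finset (Finset V)}
    (hE : IsThreeGraph E) {a b m : V} (hm : m ∈ avail E a b) : m ≠ a ∧ m ≠ b ∧ a ≠ b := by
  have h : ({a, b, m} : Finset V) ∈ E := by
    simpa [avail] using hm
  have h3 := hE _ h
  have hd := Finset.card_eq_three.mp h3
  refine ⟨?_, ?_, ?_⟩
  · rintro rfl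
    have : ({m, b, m} : Finset V).card ≤ 2 := by
      have h1 : ({m, b, m} : Finset V) = {b, m} := by
        ext z; simp
      rw [h1]; exact Finset.card_le_two
    omega
  · rintro rfl
    have : ({a, m, m} : Finset V).card ≤ 2 := by
      have h1 : ({a, m, m} : Finset V) = {a, m} := by
        ext z; simp
      rw [h1]; exact Finset.card_le_two
    omega
  · rintro rfl
    have : ({a, a, m} : Finset V).card ≤ 2 := by
      have h1 : ({a, a, m} : Finset V) = {a, m} := by
        ext z; simp
      rw [h1]; exact Finset.card_le_two
    omega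

/-- If `c` is an injective cyclic sequence of `t` vertices such that the `i`-th smallest
availability (codegree) of the `t` consecutive pairs is at least `t - 2 + i`, then the 3-graph
contains a loose cycle of length `t` with the `c i` as connectors. -/
theorem hasLooseCycle_of_avail {V : Type*} [Fintype V] [DecidableEq V] (t : ℕ) (ht : 0 < t)
    (h3 : 3 ≤ t) (E : Finset (Finset V)) (hE : IsThreeGraph E) (c : Fin t → V)
    (hc : Function.Injective c)
    (hav : ∀ k < t, (Finset.univ.filter (fun i : Fin t =>
      (avail E (c i) (c ⟨(i.1+1) % t, Nat.mod_lt _ ht⟩)).card ≤ t - 2 + k)).card ≤ k) :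
    HasLooseCycle t ht E := by
  classical
  set nx : Fin t → Fin t := fun i => ⟨(i.1+1) % t, Nat.mod_lt _ ht⟩ with hnx
  have hnx_ne : ∀ i, nx i ≠ i := by
    intro i h
    have h1 : (i.1 + 1) % t = i.1 := by
      have := congrArg Fin.val h
      simpa [hnx] using this
    have hi := i.2
    rcases Nat.lt_or_ge (i.1 + 1) t with h2 | h2
    · rw [Nat.mod_eq_of_lt h2] at h1; omega
    · have h4 : i.1 + 1 = t := by omega
      rw [h4, Nat.mod_self] at h1; omega
  set A : Fin t → Finset V := fun i => avail E (c i) (c (nx i)) \ (univ.image c) with hA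
  have hAcard : ∀ i, (avail E (c i) (c (nx i))).card ≤ (A i).card + (t - 2) := by
    intro i
    have h1 : avail E (c i) (c (nx i)) ⊆ A i ∪ ((univ.erase i).erase (nx i)).image c := by
      intro m hm
      by_cases hmc : m ∈ univ.image c
      · apply mem_union_right
        obtain ⟨j, -, hj⟩ := mem_image.mp hmc
        have hne := not_mem_avail_left hE hm
        refine mem_image.mpr ⟨j, ?_, hj⟩
        simp only [mem_erase, mem_univ, and_true]
        refine ⟨?_, ?_⟩
        · rintro rfl; exact hne.2.1 hj.symm
        · rintro rfl; exact hne.1 hj.symm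
      · apply mem_union_left
        simp only [hA, mem_sdiff]
        exact ⟨hm, hmc⟩
    have h2 : (((univ.erase i).erase (nx i)).image c).card ≤ t - 2 := by
      refine (card_image_le).trans ?_
      rw [card_erase_of_mem, card_erase_of_mem (mem_univ _), card_univ, Fintype.card_fin]
      · omega
      · simp [hnx_ne i]
    calc (avail E (c i) (c (nx i))).card ≤ (A i ∪ ((univ.erase i).erase (nx i)).image c).card :=
          card_le_card h1
      _ ≤ (A i).card + (((univ.erase i).erase (nx i)).image c).card := card_union_le _ _
      _ ≤ (A i).card + (t - 2) := by omega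
  have hHall : ∀ S : Finset (Fin t), S.card ≤ (S.biUnion A).card := by
    intro S
    rcases Nat.eq_zero_or_pos S.card with h0 | hpos
    · omega
    · have hS : S.card ≤ t := by
        have := card_le_univ S
        simpa using this
      have hk := hav (S.card - 1) (by omega)
      have hex : ∃ i ∈ S, t - 2 + (S.card - 1) < (avail E (c i) (c (nx i))).card := by
        by_contra hcon
        push Not at hcon
        have hsub : S ⊆ univ.filter (fun i : Fin t =>
            (avail E (c i) (c ⟨(i.1+1) % t, Nat.mod_lt _ ht⟩)).card ≤ t - 2 + (S.card - 1)) := by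
          intro i hi
          simp only [mem_filter, mem_univ, true_and]
          exact hcon i hi
        have := card_le_card hsub
        omega
      obtain ⟨i, hi, hlt⟩ := hex
      have h5 := hAcard i
      have h6 : (A i).card ≤ (S.biUnion A).card := card_le_card (subset_biUnion_of_mem A hi)
      omega
  obtain ⟨f, hf, hfA⟩ := (Finset.all_card_le_biUnion_card_iff_exists_injective A).mp hHall
  have hfc : ∀ i j, f i ≠ c j := by
    intro i j h
    have := hfA i
    simp only [hA, mem_sdiff, mem_image, mem_univ, true_and, not_exists] at this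
    exact this.2 j h.symm
  have hfE : ∀ i, ({c i, c (nx i), f i} : Finset V) ∈ E := by
    intro i
    have := hfA i
    simp only [hA, mem_sdiff] at this
    simpa [avail] using this.1
  refine ⟨fun j => if j.1 % 2 = 0 then c ⟨j.1 / 2, by omega⟩ else f ⟨j.1 / 2, by omega⟩, ?_, ?_⟩
  · intro j k hjk
    simp only at hjk
    split_ifs at hjk with h1 h2 h2
    · have := congrArg Fin.val (hc hjk)
      simp only at this
      apply Fin.ext; omega
    · exact absurd hjk.symm (hfc _ _)
    · exact absurd hjk (hfc _ _)
    · have := congrArg Fin.val (hf hjk)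
      simp only at this
      apply Fin.ext; omega
  · intro i
    have h := hfE i
    have himg : (cycEdge t ht i).image
        (fun j : Fin (2 * t) => if j.1 % 2 = 0 then c ⟨j.1 / 2, by omega⟩
          else f ⟨j.1 / 2, by omega⟩) = {c i, c (nx i), f i} := by
      unfold cycEdge
      rw [image_insert, image_insert, image_singleton]
      have e1 : (2 * i.1) % 2 = 0 := by omega
      have e2 : (2 * i.1 + 1) % 2 ≠ 0 := by omega
      have e3 : ((2 * i.1 + 2) % (2 * t)) = 2 * ((i.1 + 1) % t) := by
        rw [show 2 * i.1 + 2 = 2 * (i.1 + 1) by ring, Nat.mul_mod_mul_left]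
      have e4 : ((2 * i.1 + 2) % (2 * t)) % 2 = 0 := by rw [e3]; omega
      simp only [e1, e4, if_true]
      rw [if_neg e2]
      have f1 : (⟨2 * i.1 / 2, by omega⟩ : Fin t) = i := by apply Fin.ext; simp
      have f2 : (⟨(2 * i.1 + 1) / 2, by omega⟩ : Fin t) = i := by
        apply Fin.ext; simp only; omega
      have f3 : (⟨(2 * i.1 + 2) % (2 * t) / 2, by
          have := Nat.mod_lt (2 * i.1 + 2) (show 0 < 2 * t by omega); omega⟩ : Fin t) = nx i := by
        apply Fin.ext; simp only [hnx]; omega
      rw [f1, f2, f3]
      ext z
      simp only [mem_insert, mem_singleton]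
      tauto
    rw [himg]
    exact h

end Pool.Agent.Helper66.LC
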