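import Pool.Agent.Helper66.LCCost
import Pool.Agent.Helper52.LC.IneqA5
import Pool.Agent.Helper5.LCIneq

/-!
# Loose cycles: the core statement for `t = 4` and `t = 5`
-/

namespace Pool.Agent.Helper66.LC

open Finset Pool.Agent.Helper52.LC

/-- Threshold form of the embedding lemma. -/
theorem hasLooseCycle_of_thresholds {V : Type*} [Fintype V] [DecidableEq V] (t : ℕ) (ht : 0 < t)
    (h3 : 3 ≤ t) (E : Finset (Finset V)) (hE : IsThreeGraph E) (c : Fin t → V)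
    (hc : Function.Injective c) (q : Fin t → ℕ)
    (hq : ∀ i, q i ≤ (avail E (c i) (c ⟨(i.1+1) % t, Nat.mod_lt _ ht⟩)).card)
    (hcount : ∀ k < t, (Finset.univ.filter (fun i : Fin t => q i ≤ t - 2 + k)).card ≤ k) :
    HasLooseCycle t ht E := by
  apply hasLooseCycle_of_avail t ht h3 E hE c hc
  intro k hk
  refine le_trans (card_le_card ?_) (hcount k hk)
  intro i hi
  simp only [mem_filter, mem_univ, true_and] at hi ⊢
  exact (hq i).trans hi

theorem avail_comm {V : Type*} [Fintype V] [DecidableEq V] (E : Finset (Finset V)) (a b : V) :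
    avail E a b = avail E b a := by
  ext m
  simp only [avail, mem_filter, mem_univ, true_and]
  have : ({a, b, m} : Finset V) = {b, a, m} := by
    ext z; simp only [mem_insert, mem_singleton]; tauto
  rw [this]

theorem le_avail_of_not_mem_bad {n : ℕ} {E : Finset (Finset (Fin n))} {q : ℕ} {a b : Fin n}
    (hab : b ≠ a) (h : b ∉ bad E q a) : q ≤ (avail E a b).card := by
  simp only [bad, mem_filter, mem_univ, true_and, not_and, not_lt] at h
  exact h hab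

theorem W_succ {n : ℕ} (x : Fin n → ℝ) (k : ℕ) (hk : k < n) :
    W x (k + 1) = W x k + x ⟨k, hk⟩ := by
  unfold W
  have h1 : univ.filter (fun i : Fin n => i.1 < k + 1) =
      insert ⟨k, hk⟩ (univ.filter (fun i : Fin n => i.1 < k)) := by
    ext i
    simp only [mem_filter, mem_univ, true_and, mem_insert, Fin.ext_iff]
    omega
  rw [h1, sum_insert]
  · ring
  · simp

theorem W_lt_one {n : ℕ} (x : Fin n → ℝ) (hx : ∀ i, 0 < x i) (hsum : ∑ i, x i = 1) {k : ℕ}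
    (hk : k < n) : W x k < 1 := by
  have h1 := W_succ x k hk
  have h2 := W_le_one x (fun i => (hx i).le) hsum (k + 1)
  have h3 := hx ⟨k, hk⟩
  linarith

/-- Selection lemma: a vertex outside a small set and outside two sets of controlled weight. -/
theorem exists_outside {n : ℕ} (x : Fin n → ℝ) (hx : ∀ i, 0 ≤ x i)
    (hs : ∀ i j, i ≤ j → x j ≤ x i) (hsum : ∑ i, x i = 1) (F B₁ B₂ : Finset (Fin n)) {k : ℕ}
    (hF : F.card ≤ k) {z₁ z₂ m₁ m₂ : ℝ} (hz₁ : 0 < z₁) (hz₂ : 0 < z₂)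
    (h₁ : (∑ b ∈ B₁, x b) * z₁ ≤ m₁) (h₂ : (∑ b ∈ B₂, x b) * z₂ ≤ m₂)
    (hlt : W x k + m₁ / z₁ + m₂ / z₂ < 1) :
    ∃ c, c ∉ F ∧ c ∉ B₁ ∧ c ∉ B₂ := by
  classical
  by_contra hcon
  push Not at hcon
  have hcover : (univ : Finset (Fin n)) ⊆ F ∪ (B₁ ∪ B₂) := by
    intro c _
    simp only [mem_union]
    by_cases hcF : c ∈ F
    · exact Or.inl hcF
    · by_cases hcB : c ∈ B₁
      · exact Or.inr (Or.inl hcB)
      · exact Or.inr (Or.inr (hcon c hcF hcB))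
  have e1 : ∑ i, x i ≤ ∑ i ∈ F ∪ (B₁ ∪ B₂), x i :=
    sum_le_sum_of_subset_of_nonneg hcover fun i _ _ => hx i
  have e2 : ∑ i ∈ F ∪ (B₁ ∪ B₂), x i ≤ ∑ i ∈ F, x i + ∑ i ∈ B₁ ∪ B₂, x i := by
    rw [← Finset.sum_union_inter]
    have : 0 ≤ ∑ i ∈ F ∩ (B₁ ∪ B₂), x i := sum_nonneg fun i _ => hx i
    linarith
  have e3 : ∑ i ∈ B₁ ∪ B₂, x i ≤ ∑ i ∈ B₁, x i + ∑ i ∈ B₂, x i := by
    rw [← Finset.sum_union_inter]
    have : 0 ≤ ∑ i ∈ B₁ ∩ B₂, x i := sum_nonneg fun i _ => hx i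
    linarith
  have e4 := sum_le_W x hx hs F hF
  have e5 : ∑ b ∈ B₁, x b ≤ m₁ / z₁ := by
    rw [le_div_iff₀ hz₁]; exact h₁
  have e6 : ∑ b ∈ B₂, x b ≤ m₂ / z₂ := by
    rw [le_div_iff₀ hz₂]; exact h₂
  linarith

/-- The inequalities proved elsewhere (helper28, helper52). -/
def F1Stmt : Prop := ∀ (a b V U Q : ℝ) (_ : 0 ≤ b) (_ : b ≤ a) (_ : a+b ≤ V) (_ : V ≤ a+4*b)
  (_ : V ≤ U) (_ : U < 1) (_ : U ≤ V + (2/3)*(V-a-b)) (_ : a^2+b^2+(U-a-b)^2/5 ≤ Q)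
  (_ : 0 ≤ 19/49 - Q - 2*a*(1-a)),
  a + b + (19/49 - Q - 2*a*(1-a))/(1-U) + (19/49 - Q - 2*b*(1-b))/(1-V) < 1

def F2Stmt : Prop := ∀ (a b c V U Q : ℝ) (_ : 0 ≤ c) (_ : c ≤ b) (_ : b ≤ a) (_ : a+b+c ≤ V)
  (_ : V ≤ a+b+2*c) (_ : V ≤ U) (_ : U < 1) (_ : U ≤ V + 2*(V-a-b-c))
  (_ : a^2+b^2+c^2+(U-a-b-c)^2/3 ≤ Q) (_ : 0 ≤ 19/49 - Q - 2*a*(1-a)),
  a+b+c + (19/49 - Q - 2*a*(1-a))/(1-U) + (19/49 - Q - 2*b*(1-b))/(1-V) < 1

def C5Stmt : Prop := ∀ (a b c d V U Q : ℝ) (_ : 0 ≤ d) (_ : d ≤ c) (_ : c ≤ b) (_ : b ≤ a)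
  (_ : a+b+c+d ≤ V) (_ : V ≤ a+b+c+3*d) (_ : V ≤ U) (_ : U < 1) (_ : U ≤ V + (V-a-b-c-d))
  (_ : a^2+b^2+c^2+d^2+(U-a-b-c-d)^2/4 ≤ Q) (_ : 0 ≤ 25/81 - Q - 2*a*(1-a)),
  a+b+c+d + (25/81 - Q - 2*a*(1-a))/(1-U) + (25/81 - Q - 2*b*(1-b))/(1-V) < 1

def B5Stmt : Prop := ∀ (a V U Q : ℝ) (_ : 0 ≤ a) (_ : a ≤ 1/2) (_ : 0 ≤ V) (_ : V ≤ 4*a)
  (_ : V ≤ U) (_ : U < 1) (_ : U ≤ (7/4)*V) (_ : V^2/4+(U-V)^2/3 ≤ Q)
  (_ : 0 ≤ 25/81 - Q - 2*a*(1-a)),
  3*a + (25/81 - Q - 2*a*(1-a))/(1-U) + (25/81 - Q)/(1-V) < 1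

theorem mu_le_num {n : ℕ} (x : Fin n → ℝ) (θ θ₀ : ℝ) (h : θ₀ ≤ θ) (a : Fin n) (Q : ℝ)
    (hQ : Q = ∑ i, x i ^ 2) :
    mu x θ a ≤ (1 - θ₀) - Q - 2 * x a * (1 - x a) := by
  unfold mu
  rw [← hQ]
  nlinarith

theorem sq3 (a b c : ℝ) : (a + b + c) ^ 2 / 3 ≤ a ^ 2 + b ^ 2 + c ^ 2 := by
  nlinarith [sq_nonneg (a - b), sq_nonneg (a - c), sq_nonneg (b - c)]

theorem sq4 (a b c d : ℝ) : (a + b + c + d) ^ 2 / 4 ≤ a ^ 2 + b ^ 2 + c ^ 2 + d ^ 2 := by
  nlinarith [sq_nonneg (a - b), sq_nonneg (a - c), sq_nonneg (b - c), sq_nonneg (a - d),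
    sq_nonneg (b - d), sq_nonneg (c - d)]

theorem sq5 (c d e f g : ℝ) :
    (c + d + e + f + g) ^ 2 / 5 ≤ c ^ 2 + d ^ 2 + e ^ 2 + f ^ 2 + g ^ 2 := by
  have : c ^ 2 + d ^ 2 + e ^ 2 + f ^ 2 + g ^ 2 - (c + d + e + f + g) ^ 2 / 5 =
      ((c-d)^2 + (c-e)^2 + (c-f)^2 + (c-g)^2 + (d-e)^2 + (d-f)^2 + (d-g)^2 + (e-f)^2
        + (e-g)^2 + (f-g)^2) / 5 := by ring
  have h2 : 0 ≤ ((c-d)^2 + (c-e)^2 + (c-f)^2 + (c-g)^2 + (d-e)^2 + (d-f)^2 + (d-g)^2 + (e-f)^2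
        + (e-g)^2 + (f-g)^2) / 5 := by positivity
  linarith

/-- The value of `x` at the `i`-th vertex, `0` if there is none. -/
noncomputable def val {n : ℕ} (x : Fin n → ℝ) (i : ℕ) : ℝ := if h : i < n then x ⟨i, h⟩ else 0

theorem val_eq {n : ℕ} (x : Fin n → ℝ) (i : ℕ) (h : i < n) : val x i = x ⟨i, h⟩ := by
  simp [val, h]

theorem val_nonneg {n : ℕ} (x : Fin n → ℝ) (hx : ∀ i, 0 ≤ x i) (i : ℕ) : 0 ≤ val x i := by
  unfold val; split_ifs
  · exact hx _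
  · exact le_rfl

theorem val_succ_le {n : ℕ} (x : Fin n → ℝ) (hx : ∀ i, 0 ≤ x i)
    (hs : ∀ i j, i ≤ j → x j ≤ x i) (i : ℕ) : val x (i + 1) ≤ val x i := by
  by_cases h : i + 1 < n
  · rw [val_eq x _ h, val_eq x _ (by omega)]
    apply hs
    rw [Fin.le_def]
    simp
  · have : val x (i + 1) = 0 := by simp [val, h]
    rw [this]
    exact val_nonneg x hx i

theorem W_succ_val {n : ℕ} (x : Fin n → ℝ) (k : ℕ) : W x (k + 1) = W x k + val x k := by
  by_cases hk : k < n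
  · rw [W_succ x k hk, val_eq x k hk]
  · have h1 : val x k = 0 := by simp [val, hk]
    rw [h1, add_zero]
    unfold W
    congr 1
    ext i
    simp only [mem_filter, mem_univ, true_and]
    have := i.2
    omega

theorem W_sq_val {n : ℕ} (x : Fin n → ℝ) (k : ℕ) :
    W (fun i => x i ^ 2) (k + 1) = W (fun i => x i ^ 2) k + val x k ^ 2 := by
  rw [W_succ_val]
  congr 1
  unfold val
  split_ifs <;> simp

theorem core4_of (hF1 : F1Stmt) (hF2 : F2Stmt) : Core 4 (by norm_num) := by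
  intro n E x θ hE hn hx hs hsum hθ hlink
  have hx0 : ∀ i, 0 ≤ x i := fun i => (hx i).le
  have hn' : 8 ≤ n := by omega
  obtain ⟨Q, hQ⟩ : ∃ Q, Q = ∑ i, x i ^ 2 := ⟨_, rfl⟩
  have hθ' : (30 : ℝ) / 49 ≤ θ := by
    refine le_trans (le_of_eq ?_) hθ
    norm_num
  obtain ⟨v0, hv0⟩ : ∃ v : Fin n, v = ⟨0, by omega⟩ := ⟨_, rfl⟩
  obtain ⟨v1, hv1⟩ : ∃ v : Fin n, v = ⟨1, by omega⟩ := ⟨_, rfl⟩
  have h01 : v0 ≠ v1 := by rw [hv0, hv1]; simp
  -- the weights of the first seven vertices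
  have w1 := W_succ_val x 0
  have w2 := W_succ_val x 1
  have w3 := W_succ_val x 2
  have w4 := W_succ_val x 3
  have w5 := W_succ_val x 4
  have w6 := W_succ_val x 5
  have w7 := W_succ_val x 6
  have hba := val_succ_le x hx0 hs 0
  have hcb := val_succ_le x hx0 hs 1
  have hdc := val_succ_le x hx0 hs 2
  have hed := val_succ_le x hx0 hs 3
  have hfe := val_succ_le x hx0 hs 4
  have hgf := val_succ_le x hx0 hs 5
  have hg0 := val_nonneg x hx0 6
  have q7 : W (fun i => x i ^ 2) 7 = val x 0 ^ 2 + val x 1 ^ 2 + val x 2 ^ 2 + val x 3 ^ 2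
      + val x 4 ^ 2 + val x 5 ^ 2 + val x 6 ^ 2 := by
    rw [W_sq_val, W_sq_val, W_sq_val, W_sq_val, W_sq_val, W_sq_val, W_sq_val, W_zero]
    ring
  have q7' : W (fun i => x i ^ 2) 7 ≤ Q := by
    rw [hQ]; unfold W
    exact sum_le_sum_of_subset_of_nonneg (filter_subset _ _) fun i _ _ => sq_nonneg _
  have hx_v0 : x v0 = val x 0 := by rw [hv0, val_eq]
  have hx_v1 : x v1 = val x 1 := by rw [hv1, val_eq]
  norm_num only [W_zero] at w1 w2 w3 w4 w5 w6 w7 hba hcb hdc hed hfe hgf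
  have w7lt : W x 7 < 1 := W_lt_one x hx hsum (by omega)
  have hmu0 := mu_le_num x θ (30/49) hθ' v0 Q hQ
  have hmu1 := mu_le_num x θ (30/49) hθ' v1 Q hQ
  rw [hx_v0] at hmu0
  rw [hx_v1] at hmu1
  have hm0 := mu_nonneg hE hx0 hsum hlink v0
  generalize val x 0 = a at *
  generalize val x 1 = b at *
  generalize val x 2 = c at *
  generalize val x 3 = d at *
  generalize val x 4 = e at *
  generalize val x 5 = f at *
  generalize val x 6 = g at *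
  have hm : 0 ≤ 19/49 - Q - 2*a*(1-a) := by linarith
  -- first connector
  have hfirst : ∃ c0, c0 ∉ ({v0, v1} : Finset (Fin n)) ∧ c0 ∉ bad E 6 v0 ∧ c0 ∉ bad E 4 v1 := by
    have hz1 : 0 < 1 - W x 7 := by linarith
    have hz2 : 0 < 1 - W x 5 := by linarith
    apply exists_outside x hx0 hs hsum {v0, v1} (bad E 6 v0) (bad E 4 v1) (k := 2)
      card_le_two hz1 hz2 (m₁ := 19/49 - Q - 2*a*(1-a)) (m₂ := 19/49 - Q - 2*b*(1-b))
    · have := cost_bad hE hx0 hs hsum hlink v0 6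
      linarith
    · have := cost_bad hE hx0 hs hsum hlink v1 4
      linarith
    · have h5 := sq5 c d e f g
      have e1 : W x 7 - a - b = c + d + e + f + g := by linarith
      have := hF1 a b (W x 5) (W x 7) Q (by linarith) hba (by linarith) (by linarith)
        (by linarith) w7lt (by linarith) (by rw [e1]; linarith) hm
      have e2 : W x 2 = a + b := by linarith
      rw [e2]
      exact this
  obtain ⟨c0, hc0F, hc0a, hc0b⟩ := hfirst
  have hsecond : ∃ c1, c1 ∉ ({v0, v1, c0} : Finset (Fin n)) ∧ c1 ∉ bad E 5 v0 ∧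
      c1 ∉ bad E 3 v1 := by
    have hz1 : 0 < 1 - W x 6 := by linarith
    have hz2 : 0 < 1 - W x 4 := by linarith
    apply exists_outside x hx0 hs hsum {v0, v1, c0} (bad E 5 v0) (bad E 3 v1) (k := 3)
      card_le_three hz1 hz2 (m₁ := 19/49 - Q - 2*a*(1-a)) (m₂ := 19/49 - Q - 2*b*(1-b))
    · have := cost_bad hE hx0 hs hsum hlink v0 5
      linarith
    · have := cost_bad hE hx0 hs hsum hlink v1 3
      linarith
    · have h3 := sq3 d e f
      have h4 := sq_nonneg g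
      have e1 : W x 6 - a - b - c = d + e + f := by linarith
      have := hF2 a b c (W x 4) (W x 6) Q (by linarith) hcb hba (by linarith) (by linarith)
        (by linarith) (by linarith) (by linarith) (by rw [e1]; linarith) hm
      have e2 : W x 3 = a + b + c := by linarith
      rw [e2]
      exact this
  obtain ⟨c1, hc1F, hc1a, hc1b⟩ := hsecond
  simp only [mem_insert, mem_singleton, not_or] at hc0F hc1F
  apply hasLooseCycle_of_thresholds 4 (by norm_num) (by norm_num) E hE ![v0, c0, v1, c1]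
    _ ![6, 4, 3, 5]
  · intro i
    fin_cases i
    · exact le_avail_of_not_mem_bad hc0F.1 hc0a
    · show 4 ≤ (avail E c0 v1).card
      rw [avail_comm]
      exact le_avail_of_not_mem_bad hc0F.2 hc0b
    · exact le_avail_of_not_mem_bad hc1F.2.1 hc1b
    · show 5 ≤ (avail E c1 v0).card
      rw [avail_comm]
      exact le_avail_of_not_mem_bad hc1F.1 hc1a
  · decide
  · obtain ⟨n1, n2⟩ := hc0F
    obtain ⟨n3, n4, n5⟩ := hc1F
    intro i j hij
    fin_cases i <;> fin_cases j <;> first | rfl | (exfalso; simp at hij; first | exact h01 hij | exact h01 hij.symm | exact n1 hij | exact n1 hij.symm | exact n2 hij | exact n2 hij.symm | exact n3 hij | exact n3 hij.symm | exact n4 hij | exact n4 hij.symm | exact n5 hij | exact n5 hij.symm)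

/-- `a ≥ b ≥ … ≥ k ≥ 0`. -/
structure Dec9 (a b c d e f g h k : ℝ) : Prop where
  ba : b ≤ a
  cb : c ≤ b
  dc : d ≤ c
  ed : e ≤ d
  fe : f ≤ e
  gf : g ≤ f
  hg : h ≤ g
  kh : k ≤ h
  k0 : 0 ≤ k

theorem numC5 (hC5 : C5Stmt) {a b c d e f g h k Q : ℝ} (D : Dec9 a b c d e f g h k)
    (hlt : a + b + c + d + e + f + g + h < 1)
    (hQ : a^2+b^2+c^2+d^2+e^2+f^2+g^2+h^2+k^2 ≤ Q) (hm : 0 ≤ 25/81 - Q - 2*a*(1-a)) :
    a+b+c+d + (25/81 - Q - 2*a*(1-a))/(1-(a+b+c+d+e+f+g+h))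
      + (25/81 - Q - 2*b*(1-b))/(1-(a+b+c+d+e+f)) < 1 := by
  obtain ⟨ba, cb, dc, ed, fe, gf, hg, kh, k0⟩ := D
  have h3 := sq4 e f g h
  have h4 := sq_nonneg k
  refine hC5 a b c d (a+b+c+d+e+f) (a+b+c+d+e+f+g+h) Q ?_ dc cb ba ?_ ?_ ?_ hlt ?_ ?_ hm
  · linarith only [ed, fe, gf, hg, kh, k0]
  · linarith only [fe, gf, hg, kh, k0]
  · linarith only [ed, fe]
  · linarith only [hg, kh, k0]
  · linarith only [gf, hg, fe]
  · have e1 : a+b+c+d+e+f+g+h-a-b-c-d = e+f+g+h := by ring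
    rw [e1]
    linarith only [h3, h4, hQ]

theorem numB5 (hB5 : B5Stmt) {a b c d e f g h k Q : ℝ} (D : Dec9 a b c d e f g h k)
    (hlt : a + b + c + d + e + f + g < 1) (ha : a ≤ 1/2)
    (hQ : a^2+b^2+c^2+d^2+e^2+f^2+g^2+h^2+k^2 ≤ Q) (hm : 0 ≤ 25/81 - Q - 2*a*(1-a)) :
    a+b+c + (25/81 - Q - 2*a*(1-a))/(1-(a+b+c+d+e+f+g))
      + (25/81 - Q)/(1-(a+b+c+d)) < 1 := by
  obtain ⟨ba, cb, dc, ed, fe, gf, hg, kh, k0⟩ := D
  have h3 := sq4 a b c d
  have h4 := sq3 e f g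
  have h5 := sq_nonneg h
  have h6 := sq_nonneg k
  have key := hB5 a (a+b+c+d) (a+b+c+d+e+f+g) Q
    (by linarith only [ba, cb, dc, ed, fe, gf, hg, kh, k0]) ha
    (by linarith only [ba, cb, dc, ed, fe, gf, hg, kh, k0]) (by linarith only [ba, cb, dc])
    (by linarith only [fe, gf, hg, kh, k0]) hlt
    (by linarith only [ba, cb, dc, ed, fe, gf])
    (by
      have e1 : a+b+c+d+e+f+g-(a+b+c+d) = e+f+g := by ring
      rw [e1]
      linarith only [h3, h4, h5, h6, hQ]) hm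
  linarith only [key, ba, cb]

theorem numA5 {a b c d e f g h k Q : ℝ} (D : Dec9 a b c d e f g h k)
    (hlt : a + b + c + d + e + f + g + h + k < 1) (ha : a ≤ 1/2)
    (hQ : a^2+b^2+c^2+d^2+e^2+f^2+g^2+h^2+k^2 ≤ Q) (hm : 0 ≤ 25/81 - Q - 2*a*(1-a)) :
    a+b + (25/81 - Q - 2*b*(1-b))/(1-(a+b+c+d+e+f+g+h+k)) < 1 := by
  obtain ⟨ba, cb, dc, ed, fe, gf, hg, kh, k0⟩ := D
  have h3 := sq3 (a+b+c) (d+e+f) (g+h+k)
  have h4 := sq3 a b c
  have h5 := sq3 d e f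
  have h6 := sq3 g h k
  refine A5x a b (a+b+c+d+e+f+g+h+k) Q ?_ ba ha ?_ hlt ?_ ?_ hm
  · linarith only [cb, dc, ed, fe, gf, hg, kh, k0]
  · linarith only [cb, dc, ed, fe, gf, hg, kh]
  · linarith only [ba, cb, dc, ed, fe, gf, hg, kh, k0]
  · have e1 : a+b+c+d+e+f+g+h+k = (a+b+c)+(d+e+f)+(g+h+k) := by ring
    rw [e1]
    linarith only [h3, h4, h5, h6, hQ]

theorem core5_of (hC5 : C5Stmt) (hB5 : B5Stmt) : Core 5 (by norm_num) := by
  intro n E x θ hE hn hx hs hsum hθ hlink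
  have hx0 : ∀ i, 0 ≤ x i := fun i => (hx i).le
  have hn' : 10 ≤ n := by omega
  obtain ⟨Q, hQ⟩ : ∃ Q, Q = ∑ i, x i ^ 2 := ⟨_, rfl⟩
  have hθ' : (56 : ℝ) / 81 ≤ θ := by
    refine le_trans (le_of_eq ?_) hθ
    norm_num
  obtain ⟨v0, hv0⟩ : ∃ v : Fin n, v = ⟨0, by omega⟩ := ⟨_, rfl⟩
  obtain ⟨v1, hv1⟩ : ∃ v : Fin n, v = ⟨1, by omega⟩ := ⟨_, rfl⟩
  have h01 : v0 ≠ v1 := by rw [hv0, hv1]; simp
  have w1 : W x 1 = val x 0 := by rw [W_succ_val, W_zero, zero_add]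
  have w2 : W x 2 = val x 0 + val x 1 := by rw [W_succ_val, w1]
  have w3 : W x 3 = val x 0 + val x 1 + val x 2 := by rw [W_succ_val, w2]
  have w4 : W x 4 = val x 0 + val x 1 + val x 2 + val x 3 := by rw [W_succ_val, w3]
  have w5 : W x 5 = val x 0 + val x 1 + val x 2 + val x 3 + val x 4 := by rw [W_succ_val, w4]
  have w6 : W x 6 = val x 0 + val x 1 + val x 2 + val x 3 + val x 4 + val x 5 := by
    rw [W_succ_val, w5]
  have w7 : W x 7 = val x 0 + val x 1 + val x 2 + val x 3 + val x 4 + val x 5 + val x 6 := by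
    rw [W_succ_val, w6]
  have w8 : W x 8 = val x 0 + val x 1 + val x 2 + val x 3 + val x 4 + val x 5 + val x 6
      + val x 7 := by
    rw [W_succ_val, w7]
  have w9 : W x 9 = val x 0 + val x 1 + val x 2 + val x 3 + val x 4 + val x 5 + val x 6
      + val x 7 + val x 8 := by
    rw [W_succ_val, w8]
  have D : Dec9 (val x 0) (val x 1) (val x 2) (val x 3) (val x 4) (val x 5) (val x 6) (val x 7)
      (val x 8) :=
    ⟨val_succ_le x hx0 hs 0, val_succ_le x hx0 hs 1, val_succ_le x hx0 hs 2,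
      val_succ_le x hx0 hs 3, val_succ_le x hx0 hs 4, val_succ_le x hx0 hs 5,
      val_succ_le x hx0 hs 6, val_succ_le x hx0 hs 7, val_nonneg x hx0 8⟩
  have q9 : W (fun i => x i ^ 2) 9 = val x 0 ^ 2 + val x 1 ^ 2 + val x 2 ^ 2 + val x 3 ^ 2
      + val x 4 ^ 2 + val x 5 ^ 2 + val x 6 ^ 2 + val x 7 ^ 2 + val x 8 ^ 2 := by
    rw [W_sq_val, W_sq_val, W_sq_val, W_sq_val, W_sq_val, W_sq_val, W_sq_val, W_sq_val,
      W_sq_val, W_zero, zero_add]
  have q9' : W (fun i => x i ^ 2) 9 ≤ Q := by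
    rw [hQ]; unfold W
    exact sum_le_sum_of_subset_of_nonneg (filter_subset _ _) fun i _ _ => sq_nonneg _
  rw [q9] at q9'
  have hx_v0 : x v0 = val x 0 := by rw [hv0, val_eq]
  have hx_v1 : x v1 = val x 1 := by rw [hv1, val_eq]
  have w9lt : W x 9 < 1 := W_lt_one x hx hsum (by omega)
  have w8le : W x 8 ≤ W x 9 := W_mono x hx0 (by norm_num)
  have w7le : W x 7 ≤ W x 8 := W_mono x hx0 (by norm_num)
  have w6le : W x 6 ≤ W x 7 := W_mono x hx0 (by norm_num)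
  have w4le : W x 4 ≤ W x 6 := W_mono x hx0 (by norm_num)
  have hmu0 := mu_le_num x θ (56/81) hθ' v0 Q hQ
  have hmu1 := mu_le_num x θ (56/81) hθ' v1 Q hQ
  rw [hx_v0] at hmu0
  rw [hx_v1] at hmu1
  have hm0 := mu_nonneg hE hx0 hsum hlink v0
  have hval0 := val_nonneg x hx0 0
  have hval1 := val_nonneg x hx0 1
  have hmu0' : mu x θ v0 ≤ 25/81 - Q - 2 * val x 0 * (1 - val x 0) := by linarith only [hmu0]
  have hmu1' : mu x θ v1 ≤ 25/81 - Q - 2 * val x 1 * (1 - val x 1) := by linarith only [hmu1]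
  have hm : 0 ≤ 25/81 - Q - 2 * val x 0 * (1 - val x 0) := by linarith only [hmu0', hm0]
  have hba := D.ba
  have hQa : val x 0 ^ 2 ≤ Q := by
    have h1 := sq_nonneg (val x 1); have h2 := sq_nonneg (val x 2)
    have h3 := sq_nonneg (val x 3); have h4 := sq_nonneg (val x 4)
    have h5 := sq_nonneg (val x 5); have h6 := sq_nonneg (val x 6)
    have h7 := sq_nonneg (val x 7); have h8 := sq_nonneg (val x 8)
    linarith only [h1, h2, h3, h4, h5, h6, h7, h8, q9']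
  have ha1 : val x 0 < 1 := by
    have h2 : W x 1 < 1 := W_lt_one x hx hsum (by omega)
    rw [w1] at h2
    exact h2
  have hahalf : val x 0 ≤ 1 / 2 := by
    generalize val x 0 = a at hval0 hm hQa ha1
    by_contra hcon
    push Not at hcon
    nlinarith only [hcon, hm, hQa, ha1, hval0]
  -- d1 : good with v1
  have hD1 : ∃ d1, d1 ∉ ({v0, v1} : Finset (Fin n)) ∧ d1 ∉ bad E 8 v1 ∧
      d1 ∉ (∅ : Finset (Fin n)) := by
    have hz1 : 0 < 1 - W x 9 := by linarith only [w9lt]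
    apply exists_outside x hx0 hs hsum {v0, v1} (bad E 8 v1) ∅ (k := 2)
      card_le_two hz1 (z₂ := 1) (m₂ := 0) one_pos
      (m₁ := 25/81 - Q - 2 * val x 1 * (1 - val x 1))
    · have h1 := cost_bad hE hx0 hs hsum hlink v1 8
      linarith only [h1, hmu1']
    · simp
    · have h2 := numA5 D (by rw [← w9]; exact w9lt) hahalf q9' hm
      rw [← w9, ← w2] at h2
      linarith only [h2]
  obtain ⟨d1, hd1F, hd1a, -⟩ := hD1
  simp only [mem_insert, mem_singleton, not_or] at hd1F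
  -- x d1 ≤ 1/2
  have hxd1 : x d1 ≤ val x 1 := by
    rw [← hx_v1]
    apply hs
    rw [hv1, Fin.le_def]
    have h1 : d1.1 ≠ 0 := fun h => hd1F.1 (by rw [hv0]; exact Fin.ext h)
    show 1 ≤ d1.1
    omega
  have hxd1' : x d1 ≤ 1 / 2 := by linarith only [hxd1, hba, hahalf]
  have hxd1n : 0 ≤ x d1 := hx0 d1
  have hcost1 : (∑ v ∈ bad E 4 d1, x v) * (1 - W x 4) ≤ 25/81 - Q := by
    have h1 := cost_bad' hE hx0 hs hsum hlink d1 4
    have h2 := mu_le_num x θ (56/81) hθ' d1 Q hQ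
    have h3 : ∑ v ∈ bad E 4 d1, x v ≤ 1 := by
      rw [← hsum]
      exact sum_le_sum_of_subset_of_nonneg (subset_univ _) fun i _ _ => hx0 i
    generalize (∑ v ∈ bad E 4 d1, x v) = β at h1 h3 ⊢
    generalize x d1 = z at hxd1' hxd1n h1 h2 h3 ⊢
    have h4 : β * z ≤ z := by nlinarith only [hxd1n, h3]
    have h5 : z ≤ 2 * z * (1 - z) := by nlinarith only [hxd1n, hxd1']
    have h6 : β * (1 - W x 4) = β * (1 - z - W x 4) + β * z := by ring
    linarith only [h1, h2, h4, h5, h6]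
  have hD2 : ∃ d2, d2 ∉ ({v0, v1, d1} : Finset (Fin n)) ∧ d2 ∉ bad E 6 v0 ∧
      d2 ∉ bad E 4 d1 := by
    have hz1 : 0 < 1 - W x 7 := by linarith only [w9lt, w8le, w7le]
    have hz2 : 0 < 1 - W x 4 := by linarith only [w9lt, w8le, w7le, w6le, w4le]
    apply exists_outside x hx0 hs hsum {v0, v1, d1} (bad E 6 v0) (bad E 4 d1) (k := 3)
      card_le_three hz1 hz2 (m₁ := 25/81 - Q - 2 * val x 0 * (1 - val x 0)) (m₂ := 25/81 - Q)
    · have h1 := cost_bad hE hx0 hs hsum hlink v0 6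
      linarith only [h1, hmu0']
    · exact hcost1
    · have h2 := numB5 hB5 D (by rw [← w7]; linarith only [w9lt, w8le, w7le]) hahalf q9' hm
      rw [← w7, ← w4, ← w3] at h2
      exact h2
  obtain ⟨d2, hd2F, hd2a, hd2b⟩ := hD2
  simp only [mem_insert, mem_singleton, not_or] at hd2F
  have hC0 : ∃ c0, c0 ∉ ({v0, v1, d1, d2} : Finset (Fin n)) ∧ c0 ∉ bad E 7 v0 ∧
      c0 ∉ bad E 5 v1 := by
    have hz1 : 0 < 1 - W x 8 := by linarith only [w9lt, w8le]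
    have hz2 : 0 < 1 - W x 6 := by linarith only [w9lt, w8le, w7le, w6le]
    apply exists_outside x hx0 hs hsum {v0, v1, d1, d2} (bad E 7 v0) (bad E 5 v1) (k := 4)
      card_le_four hz1 hz2 (m₁ := 25/81 - Q - 2 * val x 0 * (1 - val x 0))
      (m₂ := 25/81 - Q - 2 * val x 1 * (1 - val x 1))
    · have h1 := cost_bad hE hx0 hs hsum hlink v0 7
      linarith only [h1, hmu0']
    · have h1 := cost_bad hE hx0 hs hsum hlink v1 5
      linarith only [h1, hmu1']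
    · have h2 := numC5 hC5 D (by rw [← w8]; linarith only [w9lt, w8le]) q9' hm
      rw [← w8, ← w6, ← w4] at h2
      exact h2
  obtain ⟨c0, hc0F, hc0a, hc0b⟩ := hC0
  simp only [mem_insert, mem_singleton, not_or] at hc0F
  apply hasLooseCycle_of_thresholds 5 (by norm_num) (by norm_num) E hE ![v0, c0, v1, d1, d2]
    _ ![7, 5, 8, 4, 6]
  · intro i
    fin_cases i
    · exact le_avail_of_not_mem_bad hc0F.1 hc0a
    · show 5 ≤ (avail E c0 v1).card
      rw [avail_comm]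
      exact le_avail_of_not_mem_bad hc0F.2.1 hc0b
    · exact le_avail_of_not_mem_bad hd1F.2 hd1a
    · exact le_avail_of_not_mem_bad hd2F.2.2 hd2b
    · show 6 ≤ (avail E d2 v0).card
      rw [avail_comm]
      exact le_avail_of_not_mem_bad hd2F.1 hd2a
  · decide
  · obtain ⟨n1, n2⟩ := hd1F
    obtain ⟨n3, n4, n5⟩ := hd2F
    obtain ⟨n6, n7, n8, n9⟩ := hc0F
    intro i j hij
    fin_cases i <;> fin_cases j <;> first | rfl | (exfalso; simp at hij; first | exact h01 hij | exact h01 hij.symm | exact n1 hij | exact n1 hij.symm | exact n2 hij | exact n2 hij.symm | exact n3 hij | exact n3 hij.symm | exact n4 hij | exact n4 hij.symm | exact n5 hij | exact n5 hij.symm | exact n6 hij | exact n6 hij.symm | exact n7 hij | exact n7 hij.symm | exact n8 hij | exact n8 hij.symm | exact n9 hij | exact n9 hij.symm)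

theorem f1Stmt : F1Stmt := fun a b V U Q hb hba hV1 hV hUV hU hU2 hQ hm =>
  Pool.Agent.Helper5.LCIneq.F1x a b V U Q hb hba hV1 hV hUV hU hU2 hQ hm

theorem f2Stmt : F2Stmt := fun a b c V U Q hc hcb hba hV1 hV hUV hU hU2 hQ hm =>
  Pool.Agent.Helper5.LCIneq.F2x a b c V U Q hc hcb hba hV1 hV hUV hU hU2 hQ hm

theorem c5Stmt : C5Stmt := fun a b c d V U Q hd hdc hcb hba hV1 hV hUV hU hU2 hQ hm =>
  Pool.Agent.Helper5.LCIneq.C5x a b c d V U Q hd hdc hcb hba hV1 hV hUV hU hU2 hQ hm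

theorem b5Stmt : B5Stmt := fun a V U Q ha0 ha hV0 hV hUV hU hU2 hQ hm =>
  Pool.Agent.Helper5.LCIneq.B5x a V U Q ha0 ha hV0 hV hUV hU hU2 hQ hm

/-- The core statement for `t = 4`. -/
theorem core4 : Core 4 (by norm_num) := core4_of f1Stmt f2Stmt

/-- The core statement for `t = 5`. -/
theorem core5 : Core 5 (by norm_num) := core5_of c5Stmt b5Stmt

end Pool.Agent.Helper66.LC
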